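import Pool.Agent.H817R5.EP.Stubs
import Pool.Agent.Helper601.Mertens

/-! Task PROD: product over primes, upper bound. -/

namespace Pool.Agent.H978R5.EP

open Finset Pool.Agent.H817R5.EP

theorem prod : St_PROD := by
  obtain ⟨C, hC⟩ := Pool.Agent.Helper601.Mertens.mertens_inv
  refine ⟨16 * Real.exp (4 * C), by positivity, fun z P hP => ?_⟩
  set z' : ℕ := max z 3 with hz'
  have h3 : 3 ≤ z' := le_max_right _ _
  have hz : z ≤ z' := le_max_left _ _
  have hM := (abs_le.1 (hC z' h3)).2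
  have hlog3 : 1 < Real.log 3 := by
    rw [Real.lt_log_iff_exp_lt (by norm_num)]
    exact Real.exp_one_lt_three
  have hlogz' : 1 < Real.log z' := by
    refine hlog3.trans_le (Real.log_le_log (by norm_num) ?_)
    exact_mod_cast h3
  have hsub : P ⊆ (Finset.Icc 1 z').filter Nat.Prime := by
    intro q hq
    obtain ⟨h1, h2⟩ := hP q hq
    rw [mem_filter, mem_Icc]
    exact ⟨⟨h1.one_lt.le, h2.trans hz⟩, h1⟩
  have h1 : ∏ q ∈ P, (1 + 4 / (q : ℝ)) ≤ Real.exp (∑ q ∈ P, 4 / (q : ℝ)) := by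
    rw [Real.exp_sum]
    apply prod_le_prod
    · intro q _
      positivity
    · intro q _
      rw [add_comm]
      exact Real.add_one_le_exp _
  have h2 : ∑ q ∈ P, 4 / (q : ℝ) ≤ 4 * (Real.log (Real.log z') + C) := by
    have e : ∑ q ∈ P, 4 / (q : ℝ) = 4 * ∑ q ∈ P, 1 / (q : ℝ) := by
      rw [mul_sum]
      apply sum_congr rfl
      intro q _
      ring
    rw [e]
    apply mul_le_mul_of_nonneg_left _ (by norm_num)
    refine (sum_le_sum_of_subset_of_nonneg hsub fun _ _ _ => by positivity).trans ?_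
    linarith
  have h4 : Real.exp (4 * (Real.log (Real.log z') + C)) =
      Real.exp (4 * C) * (Real.log z') ^ 4 := by
    rw [mul_add, Real.exp_add, mul_comm (Real.exp (4 * Real.log (Real.log z')))]
    congr 1
    rw [show (4 : ℝ) * Real.log (Real.log z') = ((4 : ℕ) : ℝ) * Real.log (Real.log z') by norm_num,
      Real.exp_nat_mul, Real.exp_log (by linarith)]
  have h5 : (Real.log z') ^ 4 ≤ 16 * (1 + Real.log z) ^ 4 := by
    rcases le_or_gt 3 z with h | h
    · have : z' = z := max_eq_left h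
      rw [this] at hlogz' ⊢
      have h6 : (Real.log z) ^ 4 ≤ (1 + Real.log z) ^ 4 :=
        pow_le_pow_left₀ (by linarith) (by linarith) 4
      have h7 : 0 ≤ (1 + Real.log z) ^ 4 := by positivity
      linarith
    · have e3 : z' = 3 := max_eq_right h.le
      have h8 : Real.log (z' : ℝ) ≤ 2 := by
        rw [e3]
        have := Real.log_le_sub_one_of_pos (by norm_num : (0 : ℝ) < 3)
        push_cast
        linarith
      have h9 : (0 : ℝ) ≤ Real.log z := Real.log_natCast_nonneg z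
      have h10 : (1 : ℝ) ≤ (1 + Real.log z) ^ 4 := one_le_pow₀ (by linarith)
      have h11 : (Real.log z') ^ 4 ≤ 2 ^ 4 := pow_le_pow_left₀ (by linarith) h8 4
      linarith
  calc ∏ q ∈ P, (1 + 4 / (q : ℝ)) ≤ Real.exp (∑ q ∈ P, 4 / (q : ℝ)) := h1
    _ ≤ Real.exp (4 * (Real.log (Real.log z') + C)) := Real.exp_le_exp.2 h2
    _ = Real.exp (4 * C) * (Real.log z') ^ 4 := h4
    _ ≤ Real.exp (4 * C) * (16 * (1 + Real.log z) ^ 4) :=
        mul_le_mul_of_nonneg_left h5 (Real.exp_pos _).le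
    _ = 16 * Real.exp (4 * C) * (1 + Real.log z) ^ 4 := by ring

end Pool.Agent.H978R5.EP
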